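import Pool.Agent.Helper79.OE.GoalsD
import Pool.Agent.Helper73.OE.DynLaw

/-! Packet OE-MEA (project OE, MP_fc0446_an): the dynamics in a finite volume is measurable. -/

set_option autoImplicit false

namespace Pool.Agent.Helper30.OE

open MeasureTheory Pool.Agent.Helper73.OE Pool.Agent.Helper79.OE

/-- A function of countable discrete measurable data is measurable. -/
lemma meas_disc {Ω T A : Type} [MeasurableSpace Ω] [Countable T] [MeasurableSpace A] (D : Ω → T)
    (hD : ∀ d, MeasurableSet {w | D w = d}) (g : Ω → A)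
    (hg : ∀ w w', D w = D w' → g w = g w') : Measurable g := by
  intro B _
  have : g ⁻¹' B = ⋃ d ∈ {d : T | ∃ w, D w = d ∧ g w ∈ B}, {w | D w = d} := by
    ext w
    simp only [Set.mem_preimage, Set.mem_iUnion, Set.mem_ofPred_eq, exists_prop]
    constructor
    · intro h
      exact ⟨D w, ⟨w, rfl, h⟩, rfl⟩
    · rintro ⟨d, ⟨w', h1, h2⟩, h3⟩
      rwa [hg w w' (h3.trans h1.symm)]
  rw [this]
  exact MeasurableSet.biUnion (Set.to_countable _) fun d _ => hD d

section

variable {H S L : Type} [Group H] (X : Sys H S L)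

lemma nb_rev (v : H) (s : S) : X.nb (X.nb v s) (X.bar s) = v := by
  unfold Sys.nb
  rw [X.dir_bar, mul_assoc, mul_inv_cancel, mul_one]

lemma addE_in (Λ : Set H) (O : Edges H S) (hO : ∀ v s, O v s → v ∈ Λ ∧ X.nb v s ∈ Λ)
    (e : H × S) (he : e.1 ∈ Λ ∧ X.nb e.1 e.2 ∈ Λ) :
    ∀ v s, X.addE O e v s → v ∈ Λ ∧ X.nb v s ∈ Λ := by
  rintro v s (h | h | h)
  · exact hO v s h
  · rw [← h] at he
    exact he
  · have h1 : v = (X.rev e).1 := congrArg Prod.fst h
    have h2 : s = (X.rev e).2 := congrArg Prod.snd h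
    subst h1
    subst h2
    refine ⟨he.2, ?_⟩
    have h3 : X.nb (X.rev e).1 (X.rev e).2 = e.1 := nb_rev X e.1 e.2
    rw [h3]
    exact he.1

lemma dynL_loc (hUL : UpdLoc_stmt) [Fintype L] (P : Par) (Λ : Set H) (n n' : H × S → ℕ) :
    ∀ (l : List (H × S)) (O : Edges H S), (∀ v s, O v s → v ∈ Λ ∧ X.nb v s ∈ Λ) →
      (∀ e ∈ l, e.1 ∈ Λ ∧ X.nb e.1 e.2 ∈ Λ) → (∀ e ∈ l, n e = n' e) →
      ∀ q q' : Cfg H S L, (∀ z ∈ Λ, q z = q' z) →
      (∀ z ∈ Λ, X.dynL P n l O q z = X.dynL P n' l O q' z) ∧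
        ∀ z, z ∉ Λ → X.dynL P n l O q z = q z := by
  intro l
  induction l with
  | nil =>
    intro O _ _ _ q q' hq
    exact ⟨hq, fun z _ => rfl⟩
  | cons e l ih =>
    intro O hO hl hn q q' hq
    have he := hl e (by simp)
    have h1 := hUL X P Λ O hO e.1 e.2 he.1 he.2 (n e) q q' hq
    have h2 := ih (X.addE O e) (addE_in X Λ O hO e he) (fun e' he' => hl e' (by simp [he']))
      (fun e' he' => hn e' (by simp [he'])) (X.Upd P O e.1 e.2 (n e) q)
      (X.Upd P O e.1 e.2 (n' e) q') (by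
        rw [← hn e (by simp)]
        exact h1.1)
    refine ⟨h2.1, fun z hz => ?_⟩
    exact (h2.2 z hz).trans (h1.2 z hz)

lemma ordL_in (ε ε' : ℝ) (η : Env H S) (Λ : Set H) :
    ∀ e ∈ X.ordL ε ε' η Λ, e.1 ∈ Λ ∧ X.nb e.1 e.2 ∈ Λ := by
  intro e he
  unfold Sys.ordL at he
  split_ifs at he with h
  · have h1 := (h.choose_spec.2 e).1 he
    exact ⟨h1.2.1, h1.2.2.1⟩
  · simp at he

lemma inside_in (Λ : Set H) (O : Edges H S) :
    ∀ v s, X.inside Λ O v s → v ∈ Λ ∧ X.nb v s ∈ Λ := fun _ _ h => ⟨h.2.1, h.2.2⟩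

lemma meas_Op (ε : ℝ) (v : H) (s : S) : MeasurableSet {η : Env H S | X.Op ε η v s} := by
  have h : ∀ e : H × S, Measurable fun η : Env H S => ((η e).1 : ℝ) := fun e => by
    have h1 : Measurable fun η : Env H S => (η e).1 :=
      Measurable.fst (measurable_pi_apply e)
    exact measurable_subtype_coe.comp h1
  unfold Sys.Op Sys.Cl
  refine MeasurableSet.compl (MeasurableSet.inter ?_ ?_)
  · exact measurableSet_le ((h (v, s)).pow_const 2) measurable_const
  · exact measurableSet_le ((h (X.rev (v, s))).pow_const 2) measurable_const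

end

theorem mea : D_MEA := by
  intro hUL hord hmeo H S L _ _ _ _ X P ε ε' Λ
  rw [measurable_pi_iff]
  intro z
  by_cases hz : z ∈ Λ
  · let D : (Cfg H S L × Env H S) × Seeds H S →
        (Λ → (S ≃ L)) × List (H × S) × (Λ × S → Prop) × (Λ × S → ℕ) := fun w =>
      (fun x => w.1.1 x, X.ordL ε ε' w.1.2 (Λ : Set H), fun e => X.Op ε w.1.2 e.1 e.2,
        fun e => Sys.sd P w.2 (e.1, e.2))
    have hfin : Finite (S ≃ L) := by
      classical
      infer_instance
    refine meas_disc D ?_ _ ?_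
    · rintro ⟨d1, d2, d3, d4⟩
      have e1 : {w : (Cfg H S L × Env H S) × Seeds H S | D w = (d1, d2, d3, d4)} =
          (⋂ x : Λ, {w | w.1.1 x = d1 x}) ∩ ({w | X.ordL ε ε' w.1.2 (Λ : Set H) = d2} ∩
            ((⋂ e : Λ × S, {w | X.Op ε w.1.2 e.1 e.2 ↔ d3 e}) ∩
              (⋂ e : Λ × S, {w | Sys.sd P w.2 ((e.1 : H), e.2) = d4 e}))) := by
        ext w
        simp only [D, Set.mem_ofPred_eq, Prod.mk.injEq, funext_iff, Set.mem_inter_iff,
          Set.mem_iInter, eq_iff_iff]
      rw [e1]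
      refine MeasurableSet.inter (MeasurableSet.iInter fun x => ?_) (MeasurableSet.inter ?_
        (MeasurableSet.inter (MeasurableSet.iInter fun e => ?_)
          (MeasurableSet.iInter fun e => ?_)))
      · have h1 : Measurable fun w : (Cfg H S L × Env H S) × Seeds H S => w.1.1 (x : H) :=
          (measurable_pi_apply (x : H)).comp (measurable_fst.comp measurable_fst)
        exact h1 (show MeasurableSet ({d1 x} : Set (S ≃ L)) from trivial)
      · have h1 : Measurable fun w : (Cfg H S L × Env H S) × Seeds H S => w.1.2 :=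
          measurable_snd.comp measurable_fst
        exact h1 (hmeo hord X ε ε' (Λ : Set H) d2)
      · have h1 : Measurable fun w : (Cfg H S L × Env H S) × Seeds H S => w.1.2 :=
          measurable_snd.comp measurable_fst
        have h2 := h1 (meas_Op X ε e.1 e.2)
        by_cases h3 : d3 e
        · simp only [h3, iff_true]
          exact h2
        · simp only [h3, iff_false]
          exact h2.compl
      · have h1 : Measurable fun w : (Cfg H S L × Env H S) × Seeds H S =>
            Sys.sd P w.2 ((e.1 : H), e.2) :=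
          (Sys.measurable_sd P ((e.1 : H), e.2)).comp measurable_snd
        exact h1 (measurableSet_singleton (d4 e))
    · intro w w' hw
      simp only [D, Prod.mk.injEq, funext_iff] at hw
      obtain ⟨h1, h2, h3, h4⟩ := hw
      unfold Sys.dyn
      rw [← h2]
      have h5 : X.inside (Λ : Set H) (X.Op ε w.1.2) = X.inside (Λ : Set H) (X.Op ε w'.1.2) := by
        funext v s
        unfold Sys.inside
        by_cases hv : v ∈ Λ
        · have h6 := h3 (⟨v, hv⟩, s)
          simp only at h6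
          rw [h6]
        · simp [hv]
      rw [← h5]
      refine (dynL_loc X hUL P (Λ : Set H) _ _ (X.ordL ε ε' w.1.2 (Λ : Set H)) _
        (inside_in X _ _) (ordL_in X ε ε' w.1.2 _) ?_ _ _ ?_).1 z hz
      · intro e he
        have h6 := ordL_in X ε ε' w.1.2 (Λ : Set H) e he
        exact h4 (⟨e.1, h6.1⟩, e.2)
      · intro x hx
        exact h1 ⟨x, hx⟩
  · have h1 : (fun w : (Cfg H S L × Env H S) × Seeds H S =>
        X.dyn P ε ε' (Λ : Set H) w.1.1 w.1.2 w.2 z) = fun w => w.1.1 z := by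
      funext w
      exact (dynL_loc X hUL P (Λ : Set H) (Sys.sd P w.2) (Sys.sd P w.2)
        (X.ordL ε ε' w.1.2 (Λ : Set H)) _
        (inside_in X _ _) (ordL_in X ε ε' w.1.2 _) (fun _ _ => rfl) w.1.1 w.1.1
        (fun _ _ => rfl)).2 z hz
    rw [h1]
    exact (measurable_pi_apply z).comp (measurable_fst.comp measurable_fst)

end Pool.Agent.Helper30.OE
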