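import Pool.Agent.Helper75.OE.GoalsB

/-! Packet OE-MED (project OE, MP_fc0446_an): the metric of the tree. -/

set_option autoImplicit false

namespace Pool.Agent.Helper30.OE

open Pool.Agent.Helper73.OE Pool.Agent.Helper75.OE

section

variable {H S L : Type} [Group H] (X : Sys H S L)

lemma tri (a z : H) : ∀ (n : ℕ) (b : H), X.dist z b = n →
    X.dist a b ≤ X.dist a z + X.dist z b := by
  intro n
  induction n with
  | zero =>
    intro b hb
    rw [(X.dist_eq_zero z b).1 hb]
    omega
  | succ n ih =>
    intro b hb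
    have hne : b ≠ z := by
      rintro rfl
      rw [X.dist_self] at hb
      omega
    obtain ⟨s, hs⟩ := X.exists_parent hne
    have h1 := ih (X.nb b s) (by omega)
    have h2 := X.dist_le_nb a b s
    omega

lemma same_branch (x b : H) (t r : S) (hb : b ∈ X.Sd (X.nb x t) (X.bar t))
    (hne : X.nb b r ≠ x) : X.nb b r ∈ X.Sd (X.nb x t) (X.bar t) := by
  by_contra h
  obtain ⟨h1, h2⟩ := X.Sd_edge hb h
  apply hne
  rw [h1, h2, X.nb_bar]

lemma diff (x : H) (s t : S) (a : H) (hst : s ≠ t) (ha : a ∈ X.Sd (X.nb x s) (X.bar s)) :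
    ∀ (n : ℕ) (b : H), X.dist x b ≤ n → b ∈ X.Sd (X.nb x t) (X.bar t) →
      X.dist a b = X.dist a x + X.dist x b := by
  intro n
  induction n with
  | zero =>
    intro b hn hb
    have h1 : x = b := (X.dist_eq_zero x b).1 (by omega)
    subst h1
    exact absurd hb (X.notMem_Sd_bar x t)
  | succ n ih =>
    intro b hn hb
    have hbx : b ≠ x := by
      rintro rfl
      exact X.notMem_Sd_bar b t hb
    obtain ⟨r, hr⟩ := X.exists_parent hbx
    have hbr : X.nb (X.nb b r) (X.bar r) = b := X.nb_bar b r
    by_cases h1 : X.nb b r = x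
    · rw [h1] at hbr
      have h2 : X.bar r = t := by
        refine X.branch_unique (z := b) (v := x) ?_ hb
        rw [hbr]
        have := X.self_mem_Sd b (X.bar (X.bar r))
        exact this
      rw [h2] at hbr
      have h3 : a ∈ X.Sd x t := X.branch_subset hst ha
      rw [X.mem_Sd_iff, hbr] at h3
      rw [h3, hr, h1, X.dist_self]
    · have h2 := same_branch X x b t r hb h1
      have h3 := ih (X.nb b r) (by omega) h2
      obtain ⟨r', hr'⟩ := X.exists_parent h1
      have h4 : X.dist a (X.nb (X.nb b r) r') = X.dist a x + X.dist x (X.nb (X.nb b r) r') := by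
        by_cases h5 : X.nb (X.nb b r) r' = x
        · rw [h5, X.dist_self, add_zero]
        · exact ih _ (by omega) (same_branch X x (X.nb b r) t r' h2 h5)
      have h6 : X.dist a (X.nb b r) = X.dist a (X.nb (X.nb b r) r') + 1 := by omega
      rcases X.dist_nb a (X.nb b r) (X.bar r) with h7 | h7
      · rw [hbr] at h7
        omega
      · have h8 := X.parent_unique h7 h6
        rw [← h8, hbr] at hr'
        omega

end

theorem med : B_MED := by
  intro H S L _ X
  have h1 : ∀ a z b, X.dist a b ≤ X.dist a z + X.dist z b := fun a z b => tri X a z _ b rfl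
  have h2 : ∀ (x : H) (s t : S) (a b : H), s ≠ t → a ∈ X.Sd (X.nb x s) (X.bar s) →
      b ∈ X.Sd (X.nb x t) (X.bar t) → X.dist a b = X.dist a x + X.dist x b :=
    fun x s t a b hst ha hb => diff X x s t a hst ha _ b le_rfl hb
  have h3 : ∀ (x : H) (s : S) (a b : H), a ∈ X.Sd (X.nb x s) (X.bar s) →
      b ∈ X.Sd (X.nb x s) (X.bar s) → X.dist a b < X.dist a x + X.dist x b := by
    intro x s a b ha hb
    rw [X.mem_Sd_bar] at ha hb
    have h4 := h1 a (X.nb x s) b
    have h5 := X.dist_comm b x
    have h6 := X.dist_comm b (X.nb x s)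
    omega
  refine ⟨h1, h2, h3, ?_⟩
  intro o x z c h
  by_cases hxo : x = o
  · subst hxo
    left
    rw [X.dist_self, zero_add]
  by_cases hxz : x = z
  · subst hxz
    right
    rw [X.dist_self, add_zero]
  by_cases hxc : x = c
  · subst hxc
    left
    rw [X.dist_self, add_zero]
  obtain ⟨s, hs⟩ := X.exists_branch (Ne.symm hxo)
  obtain ⟨t, ht⟩ := X.exists_branch (Ne.symm hxz)
  obtain ⟨r, hr⟩ := X.exists_branch (Ne.symm hxc)
  have hst : s ≠ t := by
    rintro rfl
    have := h3 x s o z hs ht
    omega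
  by_cases hrs : r = s
  · right
    exact (h2 x r t c z (hrs ▸ hst) hr ht).symm
  · left
    exact (h2 x s r o c (Ne.symm hrs) hs hr).symm

end Pool.Agent.Helper30.OE
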